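import Pool.Agent.V11232.CF.Cmp

/-!
There is no language family `𝓛` with `SCFA(𝓛) = CS`.

`SCFA(𝓛)` is closed under erasing weak codings, for every family `𝓛`: the control language of a
state-controlled automaton does not see the input letters. The family of the context-sensitive
languages is not closed under erasing weak codings.
-/

set_option autoImplicit false

namespace Pool.Agent.Results.MP_020f70_lc.NoFamily

open Relation
open Pool.Agent.V11232.CF (Step Gen)

/-- A finite automaton with the states `Q` and the input letters `A`. A triple `(p, a, q)` is the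
rule `p a → q`; here `a` is a letter or the empty word (`none`). -/
structure FA (Q A : Type) where
  /-- the rules -/
  rules : Set (Q × Option A × Q)
  /-- the start state -/
  start : Q
  /-- the final states -/
  final : Set Q

/-- A move from `(p, a x, α)` to `(q, x, α p)`, by a rule `p a → q`. -/
def Move {Q A : Type} (M : FA Q A) (c d : Q × List A × List Q) : Prop :=
  ∃ a : Option A, (c.1, a, d.1) ∈ M.rules ∧ c.2.1 = a.toList ++ d.2.1 ∧ d.2.2 = c.2.2 ++ [c.1]

/-- the language accepted by `M` with the control language `C` -/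
def lang {Q A : Type} (M : FA Q A) (C : Set (List Q)) : Set (List A) :=
  {w | ∃ f ∈ M.final, ∃ α ∈ C, ReflTransGen (Move M) (M.start, w, []) (f, [], α)}

/-- A family of languages: for every alphabet a set of languages over it. -/
abbrev Family : Type 1 := (A : Type) → Set (Set (List A))

/-- the languages accepted by finite automata whose control language belongs to `𝓛` -/
def SCFA (𝓛 : Family) : Family := fun A =>
  {L | ∃ (Q : Type) (_ : Finite Q) (M : FA Q A) (C : Set (List Q)), C ∈ 𝓛 Q ∧ L = lang M C}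

/-- the languages generated by noncontracting grammars -/
def CS : Family := fun A =>
  {L | ∃ (N : Type) (_ : Finite N) (S : N) (P : Set (List (Symbol A N) × List (Symbol A N))),
    P.Finite ∧ (∀ ρ ∈ P, (∃ B, Symbol.nonterminal B ∈ ρ.1) ∧ ρ.1.length ≤ ρ.2.length) ∧
    L = {w | Gen P S w}}

/-- Over every finite alphabet the two families contain the same languages, up to the empty word. -/
def Same (𝓐 𝓑 : Family) : Prop := ∀ (A : Type) [Finite A],
  (∀ L ∈ 𝓐 A, ∃ L' ∈ 𝓑 A, ∀ w ≠ [], w ∈ L ↔ w ∈ L') ∧
  (∀ L ∈ 𝓑 A, ∃ L' ∈ 𝓐 A, ∀ w ≠ [], w ∈ L ↔ w ∈ L')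

/-- the automaton with renamed and erased input letters -/
def FA.map {Q A B : Type} (M : FA Q A) (h : A → Option B) : FA Q B where
  rules := {r | ∃ a : Option A, (r.1, a, r.2.2) ∈ M.rules ∧ r.2.1 = a.bind h}
  start := M.start
  final := M.final

theorem toList_bind {A B : Type} (h : A → Option B) (a : Option A) (x : List A) :
    (a.toList ++ x).filterMap h = (a.bind h).toList ++ x.filterMap h := by
  cases a with
  | none => simp
  | some a =>
    cases hb : h a with
    | none => simp [hb]
    | some b => simp [hb]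

theorem lang_map {Q A B : Type} (M : FA Q A) (h : A → Option B) (C : Set (List Q)) :
    lang (M.map h) C = {v | ∃ w ∈ lang M C, w.filterMap h = v} := by
  ext v
  constructor
  · rintro ⟨f, hf, α, hα, hr⟩
    have key : ∀ c d : Q × List B × List Q, ReflTransGen (Move (M.map h)) c d → d.2.1 = [] →
        ∃ w, w.filterMap h = c.2.1 ∧
          ReflTransGen (Move M) (c.1, w, c.2.2) (d.1, [], d.2.2) := by
      intro c d hcd hd
      induction hcd using ReflTransGen.head_induction_on with
      | refl => exact ⟨[], by rw [hd]; rfl, .refl⟩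
      | head hab _ ih =>
        obtain ⟨w, hw, hr⟩ := ih
        obtain ⟨b, ⟨a, h1, h2⟩, h3, h4⟩ := hab
        refine ⟨a.toList ++ w, ?_, ReflTransGen.head ⟨a, h1, rfl, h4⟩ hr⟩
        rw [toList_bind, hw, h3]
        congr 2
        exact h2.symm
    obtain ⟨w, hw, hr'⟩ := key _ _ hr rfl
    exact ⟨w, ⟨f, hf, α, hα, hr'⟩, hw⟩
  · rintro ⟨w, ⟨f, hf, α, hα, hr⟩, rfl⟩
    refine ⟨f, hf, α, hα, ?_⟩
    have key : ∀ c d : Q × List A × List Q, ReflTransGen (Move M) c d →
        ReflTransGen (Move (M.map h)) (c.1, c.2.1.filterMap h, c.2.2)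
          (d.1, d.2.1.filterMap h, d.2.2) := by
      intro c d hcd
      induction hcd with
      | refl => exact .refl
      | tail _ hbc ih =>
        obtain ⟨a, h1, h2, h3⟩ := hbc
        refine ih.tail ⟨a.bind h, ⟨a, h1, rfl⟩, ?_, h3⟩
        simp only
        rw [h2, toList_bind]
    exact key _ _ hr

/-- For every family `𝓛` of languages the family `SCFA(𝓛)` is closed under maps which rename or
erase letters, and `SCFA(𝓛)` differs from the family of the context-sensitive languages, even up to
the empty word. In particular no family `𝓛` between `CF` and the languages of the propagating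
programmed grammars with appearance checking satisfies `SCFA(𝓛) = CS`. -/
theorem result (𝓛 : Family) :
    (∀ (A B : Type) (h : A → Option B), ∀ L ∈ SCFA 𝓛 A,
      {v | ∃ w ∈ L, w.filterMap h = v} ∈ SCFA 𝓛 B) ∧ ¬ Same (SCFA 𝓛) CS := by
  have hcl : ∀ (A B : Type) (h : A → Option B), ∀ L ∈ SCFA 𝓛 A,
      {v | ∃ w ∈ L, w.filterMap h = v} ∈ SCFA 𝓛 B := by
    rintro A B h L ⟨Q, hQ, M, C, hC, rfl⟩
    exact ⟨Q, hQ, M.map h, C, hC, (lang_map M h C).symm⟩
  refine ⟨hcl, fun hS => ?_⟩
  obtain ⟨f, hf, hd⟩ := Pool.Agent.W298.FG.P2.main Pool.Agent.W382.FG.P1.main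
  have hre : REPred fun n => n ∈ {n | f n = 1} := by
    have hp : PrimrecPred (fun n => f n = 1) :=
      Primrec.eq.comp (Primrec.nat_iff.2 hf) (Primrec.const 1)
    obtain ⟨d, hd⟩ := hp
    have : ComputablePred (fun n => f n = 1) := ⟨d, hd.to_comp⟩
    exact this.to_re
  obtain ⟨K, L, ins, _, hM⟩ := Pool.Agent.Helper273.Machine.exists_machine _ hre
  have hK : ((0 : Fin (K + 3)) : ℕ) = 0 := rfl
  have hK1 : ((1 : Fin (K + 3)) : ℕ) = 1 := rfl
  set RS := Pool.Agent.V11232.CF.RS ins 0 (Fin.last L) (0 : Fin (K + 3)) 1 with hRS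
  obtain ⟨L2, hL2, hw2⟩ := (hS (Option (Fin 3))).2 {w | Gen RS .s0 w}
    ⟨_, inferInstance, .s0, RS, Pool.Agent.V11232.CF.RS_finite _ _ _ _ _,
      Pool.Agent.V11232.CF.RS_len _ _ _ _ _, rfl⟩
  obtain ⟨L4, ⟨N, hN, S, P, hP, hlen, rfl⟩, hw4⟩ := (hS (Fin 3)).1 _ (hcl _ _ id L2 hL2)
  obtain ⟨m, hm, hne⟩ := hd N S ((fun ρ : List (Symbol (Fin 3) N) × List (Symbol (Fin 3) N) =>
    ((ρ.1, ρ.2, ∅) : Pool.Agent.W937.FG.GRule (Fin 3) N)) '' P) (hP.image _) (by
      rintro _ ⟨ρ, hρ, rfl⟩
      exact (hlen ρ hρ).2)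
  have hst : Pool.Agent.W937.FG.GStep ((fun ρ : List (Symbol (Fin 3) N) ×
      List (Symbol (Fin 3) N) => ((ρ.1, ρ.2, ∅) : Pool.Agent.W937.FG.GRule (Fin 3) N)) '' P) =
      Step P := by
    funext α β
    apply propext
    constructor
    · rintro ⟨u, v, l, r, F, ⟨ρ, hρ, he⟩, h1, h2, _⟩
      simp only [Prod.mk.injEq] at he
      obtain ⟨rfl, rfl, _⟩ := he
      exact ⟨u, v, ρ.1, ρ.2, hρ, h1, h2⟩
    · rintro ⟨u, v, l, r, h, h1, h2⟩
      exact ⟨u, v, l, r, ∅, ⟨(l, r), h, rfl⟩, h1, h2, by simp⟩
  have habc : Pool.Agent.W937.FG.abc m ≠ [] := by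
    intro h
    have := congrArg List.length h
    simp [Pool.Agent.W937.FG.abc] at this
    omega
  have e1 : Pool.Agent.W937.FG.GGen ((fun ρ : List (Symbol (Fin 3) N) ×
      List (Symbol (Fin 3) N) => ((ρ.1, ρ.2, ∅) : Pool.Agent.W937.FG.GRule (Fin 3) N)) '' P) S
      (Pool.Agent.W937.FG.abc m) ↔ f m = 1 := by
    unfold Pool.Agent.W937.FG.GGen
    rw [hst]
    have e2 := hw4 (Pool.Agent.W937.FG.abc m) habc
    have e3 : ReflTransGen (Step P) [Symbol.nonterminal S]
        ((Pool.Agent.W937.FG.abc m).map Symbol.terminal) ↔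
        ∃ w ∈ L2, w.filterMap id = Pool.Agent.W937.FG.abc m := e2.symm
    rw [e3]
    constructor
    · rintro ⟨w, hw, hwm⟩
      have hw0 : w ≠ [] := by
        rintro rfl
        exact habc hwm.symm
      have h3 := Pool.Agent.V11232.CF.inv_gen hK hK1 ((hw2 w hw0).2 hw)
      have h4 : Pool.Agent.V11232.CF.na w = m := by
        have h5 : ∀ l : List (Option (Fin 3)), Pool.Agent.V11232.CF.na l =
            (l.filterMap id).count 0 := by
          intro l
          induction l with
          | nil => rfl
          | cons a l ih =>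
            unfold Pool.Agent.V11232.CF.na at ih ⊢
            cases a with
            | none => simpa using ih
            | some a =>
              have e : (some a :: l).filterMap id = a :: l.filterMap id := by
                rw [List.filterMap_cons]
                rfl
              rw [List.count_cons, ih, e, List.count_cons]
              simp
        rw [h5, hwm]
        simp [Pool.Agent.W937.FG.abc, List.count_append, List.count_replicate]
      rw [h4] at h3
      exact (hM m).2 h3
    · intro h
      obtain ⟨w, hw, hwm⟩ := Pool.Agent.V11232.CF.gen_of (ins := ins) (q0 := 0)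
        (q1 := Fin.last L) hK hK1 m ((hM m).1 h)
      refine ⟨w, (hw2 w ?_).1 hw, hwm⟩
      rintro rfl
      exact habc hwm.symm
  rw [e1] at hne
  tauto

end Pool.Agent.Results.MP_020f70_lc.NoFamily
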